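import Pool.Agent.Lib_helper71.Normal.Defs

/-!
Heights of minimal polynomials: the minimal polynomial of a root of an integer polynomial of
bounded degree has height bounded by a constant times the height of that polynomial, and the
same for rational shifts of the root.
-/

set_option autoImplicit false

namespace Pool.Agent.Lib_helper71.Normal

open Polynomial

theorem natAbs_coeff_le_height (P : ℤ[X]) (i : ℕ) : (P.coeff i).natAbs ≤ height P := by
  unfold height
  by_cases h : i ∈ P.support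
  · exact Finset.le_sup (f := fun i => (P.coeff i).natAbs) h
  · rw [Polynomial.notMem_support_iff] at h
    simp [h]

theorem abs_coeff_le_height (P : ℤ[X]) (i : ℕ) : |(P.coeff i : ℝ)| ≤ (height P : ℝ) := by
  have h := natAbs_coeff_le_height P i
  have h2 : ((P.coeff i).natAbs : ℝ) ≤ (height P : ℝ) := by exact_mod_cast h
  rwa [Nat.cast_natAbs, Int.cast_abs] at h2

theorem height_le_of_forall (P : ℤ[X]) (B : ℝ) (hB : 0 ≤ B)
    (h : ∀ i, |(P.coeff i : ℝ)| ≤ B) : (height P : ℝ) ≤ B := by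
  unfold height
  by_cases hs : P.support.Nonempty
  · obtain ⟨i, _, hi⟩ := Finset.exists_mem_eq_sup P.support hs (fun i => (P.coeff i).natAbs)
    rw [hi, Nat.cast_natAbs, Int.cast_abs]
    exact h i
  · rw [Finset.not_nonempty_iff_eq_empty] at hs
    simp [hs, hB]

theorem exists_isMinPoly (α : ℝ) (P : ℤ[X]) (hP : P ≠ 0) (hα : aeval α P = 0) :
    ∃ M : ℤ[X], IsMinPoly M α ∧ M ∣ P := by
  have halg : IsAlgebraic ℤ α := ⟨P, hP, hα⟩
  have hPQ : P.map (algebraMap ℤ ℚ) ≠ 0 := by
    rw [Ne, Polynomial.map_eq_zero_iff]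
    · exact hP
    · exact Int.cast_injective
  have halgQ : IsAlgebraic ℚ α := ⟨P.map (algebraMap ℤ ℚ), hPQ, by
    rw [aeval_map_algebraMap]; exact hα⟩
  have hint : IsIntegral ℚ α := halgQ.isIntegral
  set μ : ℚ[X] := minpoly ℚ α with hμ
  have hμ0 : μ ≠ 0 := minpoly.ne_zero hint
  set N : ℤ[X] := IsLocalization.integerNormalization (nonZeroDivisors ℤ) μ with hN
  obtain ⟨b, hb0, hb⟩ := IsLocalization.integerNormalization_spec (nonZeroDivisors ℤ) μ
  have hbne : b ≠ 0 := nonZeroDivisors.ne_zero hb0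
  have hN0 : N ≠ 0 := by
    intro h
    exact hμ0 ((IsFractionRing.integerNormalization_eq_zero_iff (A := ℤ)).1 h)
  have hNα : aeval α N = 0 :=
    IsLocalization.integerNormalization_aeval_eq_zero (nonZeroDivisors ℤ) μ (minpoly.aeval ℚ α)
  set M0 : ℤ[X] := N.primPart with hM0
  have hM0α : aeval α M0 = 0 := aeval_primPart_eq_zero hN0 hNα
  have hM0p : M0.IsPrimitive := isPrimitive_primPart N
  have key : ∀ Q : ℤ[X], aeval α Q = 0 → M0 ∣ Q := by
    intro Q hQ
    rw [IsPrimitive.Int.dvd_iff_map_cast_dvd_map_cast M0 Q hM0p]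
    have h1 : M0.map (Int.castRingHom ℚ) ∣ N.map (Int.castRingHom ℚ) :=
      Polynomial.map_dvd _ (primPart_dvd N)
    have h2 : N.map (Int.castRingHom ℚ) ∣ μ := by
      have h3 : N.map (Int.castRingHom ℚ) = C (b : ℚ) * μ := by
        have h4 : N.map (algebraMap ℤ ℚ) = b • μ := hb
        rw [show (Int.castRingHom ℚ) = algebraMap ℤ ℚ from rfl, h4, zsmul_eq_mul]
        simp
      rw [h3]
      have hbq : (b : ℚ) ≠ 0 := by exact_mod_cast hbne
      refine ⟨C ((b : ℚ)⁻¹), ?_⟩
      rw [mul_comm (C (b : ℚ)) μ, mul_assoc, ← C_mul, mul_inv_cancel₀ hbq]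
      simp
    have h3 : μ ∣ Q.map (Int.castRingHom ℚ) := by
      apply minpoly.dvd
      rw [show (Int.castRingHom ℚ) = algebraMap ℤ ℚ from rfl, aeval_map_algebraMap]
      exact hQ
    exact (h1.trans h2).trans h3
  have hM00 : M0 ≠ 0 := hM0p.ne_zero
  have hlc : M0.leadingCoeff ≠ 0 := leadingCoeff_ne_zero.2 hM00
  rcases lt_or_gt_of_ne hlc with hneg | hpos
  · refine ⟨-M0, ⟨?_, ?_, ?_, ?_⟩, ?_⟩
    · intro r hr
      exact hM0p r ((dvd_neg).1 hr)
    · rw [leadingCoeff_neg]; omega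
    · rw [map_neg, hM0α, neg_zero]
    · intro Q hQ0 hQ
      rw [natDegree_neg]
      exact natDegree_le_of_dvd (key Q hQ) hQ0
    · exact (neg_dvd).2 (key P hα)
  · exact ⟨M0, ⟨hM0p, hpos, hM0α, fun Q hQ0 hQ => natDegree_le_of_dvd (key Q hQ) hQ0⟩, key P hα⟩

theorem mahlerMeasure_le_height (n : ℕ) (P : ℤ[X]) (hn : P.natDegree ≤ n) :
    (P.map (Int.castRingHom ℂ)).mahlerMeasure ≤ ((n : ℝ) + 1) * height P := by
  refine (mahlerMeasure_le_sum_norm_coeff _).trans ?_
  rw [Polynomial.sum_over_range' _ _ (n + 1)]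
  · calc ∑ i ∈ Finset.range (n + 1), ‖(P.map (Int.castRingHom ℂ)).coeff i‖
        ≤ ∑ _i ∈ Finset.range (n + 1), (height P : ℝ) := by
          apply Finset.sum_le_sum
          intro i _
          rw [coeff_map]
          simpa using abs_coeff_le_height P i
      _ = ((n : ℝ) + 1) * height P := by simp
  · exact lt_of_le_of_lt (natDegree_map_le) (Nat.lt_succ_of_le hn)
  · intro i; simp

theorem height_le_mahlerMeasure (n : ℕ) (M : ℤ[X]) (hn : M.natDegree ≤ n) :
    (height M : ℝ) ≤ (2 : ℝ) ^ n * (M.map (Int.castRingHom ℂ)).mahlerMeasure := by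
  have hnn : 0 ≤ (M.map (Int.castRingHom ℂ)).mahlerMeasure := mahlerMeasure_nonneg _
  apply height_le_of_forall
  · positivity
  · intro i
    have h := norm_coeff_le_choose_mul_mahlerMeasure i (M.map (Int.castRingHom ℂ))
    rw [coeff_map] at h
    have h1 : |(M.coeff i : ℝ)| ≤
        (((M.map (Int.castRingHom ℂ)).natDegree.choose i : ℕ) : ℝ) *
          (M.map (Int.castRingHom ℂ)).mahlerMeasure := by
      simpa using h
    refine h1.trans ?_
    apply mul_le_mul_of_nonneg_right _ hnn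
    have h2 : (M.map (Int.castRingHom ℂ)).natDegree.choose i ≤ 2 ^ n := by
      calc (M.map (Int.castRingHom ℂ)).natDegree.choose i
          ≤ 2 ^ (M.map (Int.castRingHom ℂ)).natDegree := Nat.choose_le_two_pow _ _
        _ ≤ 2 ^ n := Nat.pow_le_pow_right (by norm_num) (natDegree_map_le.trans hn)
    exact_mod_cast h2

theorem height_le_of_dvd (n : ℕ) (M P : ℤ[X]) (hP : P ≠ 0) (hn : P.natDegree ≤ n) (hd : M ∣ P) :
    (height M : ℝ) ≤ (2 : ℝ) ^ n * ((n : ℝ) + 1) * height P := by
  obtain ⟨R, rfl⟩ := hd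
  have hR : R ≠ 0 := right_ne_zero_of_mul hP
  have hM : M ≠ 0 := left_ne_zero_of_mul hP
  have hMn : M.natDegree ≤ n := (natDegree_le_of_dvd (Dvd.intro R rfl) hP).trans hn
  have h1 := height_le_mahlerMeasure n M hMn
  have h2 := mahlerMeasure_le_height n (M * R) hn
  rw [Polynomial.map_mul, mahlerMeasure_mul] at h2
  have h3 := one_le_mahlerMeasure_of_ne_zero hR
  have h4 : 0 ≤ (M.map (Int.castRingHom ℂ)).mahlerMeasure := mahlerMeasure_nonneg _
  calc (height M : ℝ) ≤ (2 : ℝ) ^ n * (M.map (Int.castRingHom ℂ)).mahlerMeasure := h1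
    _ ≤ (2 : ℝ) ^ n * ((M.map (Int.castRingHom ℂ)).mahlerMeasure *
          (R.map (Int.castRingHom ℂ)).mahlerMeasure) := by
        apply mul_le_mul_of_nonneg_left _ (by positivity)
        exact le_mul_of_one_le_right h4 h3
    _ ≤ (2 : ℝ) ^ n * (((n : ℝ) + 1) * height (M * R)) := by
        apply mul_le_mul_of_nonneg_left h2 (by positivity)
    _ = (2 : ℝ) ^ n * ((n : ℝ) + 1) * height (M * R) := by ring

theorem minpoly_height (n : ℕ) : ∃ C : ℝ, 0 < C ∧ ∀ (α : ℝ) (P : ℤ[X]), P ≠ 0 →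
    P.natDegree ≤ n → aeval α P = 0 → ∃ M : ℤ[X], IsMinPoly M α ∧ M.natDegree ≤ n ∧
      (height M : ℝ) ≤ C * height P := by
  refine ⟨(2 : ℝ) ^ n * ((n : ℝ) + 1), by positivity, ?_⟩
  intro α P hP hn hα
  obtain ⟨M, hM, hd⟩ := exists_isMinPoly α P hP hα
  exact ⟨M, hM, (natDegree_le_of_dvd hd hP).trans hn, height_le_of_dvd n M P hP hn hd⟩

theorem shift_poly (n D : ℕ) (hD : 1 ≤ D) : ∃ C : ℝ, 0 < C ∧ ∀ (α : ℝ) (P : ℤ[X]), P ≠ 0 →
    P.natDegree ≤ n → aeval α P = 0 → ∀ s : ℕ, s ≤ D → ∃ P' : ℤ[X], P' ≠ 0 ∧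
      P'.natDegree ≤ n ∧ aeval (α + (s : ℝ) / (D : ℝ)) P' = 0 ∧
      (height P' : ℝ) ≤ C * height P := by
  classical
  have hD0 : (D : ℝ) ≠ 0 := by
    have : (1 : ℝ) ≤ D := by exact_mod_cast hD
    positivity
  -- the building blocks
  set q : ℕ → ℕ → ℤ[X] := fun s i =>
    (C (D : ℤ) * X - C (s : ℤ)) ^ i * C ((D : ℤ) ^ (n - i)) with hq
  set B : ℝ := 1 + ∑ s ∈ Finset.range (D + 1), ∑ i ∈ Finset.range (n + 1), (height (q s i) : ℝ)
    with hB
  have hBpos : 0 < B := by positivity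
  refine ⟨B, hBpos, ?_⟩
  intro α P hP hn hα s hs
  set P' : ℤ[X] := ∑ i ∈ Finset.range (n + 1), C (P.coeff i) * q s i with hP'
  have heval : ∀ β : ℝ, aeval β P' = (D : ℝ) ^ n * aeval (β - (s : ℝ) / D) P := by
    intro β
    rw [hP', map_sum, aeval_eq_sum_range' (lt_of_le_of_lt hn (Nat.lt_succ_self n)),
      Finset.mul_sum]
    apply Finset.sum_congr rfl
    intro i hi
    have hi' : i ≤ n := Nat.lt_succ_iff.1 (Finset.mem_range.1 hi)
    have h1 : (D : ℝ) * β - s = D * (β - s / D) := by field_simp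
    simp only [hq, map_mul, map_pow, map_sub, aeval_C, aeval_X]
    simp only [algebraMap_int_eq, eq_intCast, Int.cast_natCast, zsmul_eq_mul]
    rw [h1, mul_pow]
    have h2 : (D : ℝ) ^ n = (D : ℝ) ^ i * (D : ℝ) ^ (n - i) := by
      rw [← pow_add]; congr 1; omega
    rw [h2]
    ring
  have hdeg : P'.natDegree ≤ n := by
    rw [hP']
    apply natDegree_sum_le_of_forall_le
    intro i hi
    have hi' : i ≤ n := Nat.lt_succ_iff.1 (Finset.mem_range.1 hi)
    refine (natDegree_C_mul_le _ _).trans ?_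
    simp only [hq]
    refine (natDegree_mul_C_le _ _).trans ?_
    refine (natDegree_pow_le).trans ?_
    have h1 : (C (D : ℤ) * X - C (s : ℤ) : ℤ[X]).natDegree ≤ 1 := by
      refine (natDegree_sub_le _ _).trans ?_
      simp only [natDegree_C, max_le_iff]
      exact ⟨(natDegree_C_mul_le _ _).trans natDegree_X_le, by omega⟩
    calc i * (C (D : ℤ) * X - C (s : ℤ) : ℤ[X]).natDegree ≤ i * 1 := by gcongr
      _ ≤ n := by omega
  refine ⟨P', ?_, hdeg, ?_, ?_⟩
  · intro h0
    apply hP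
    have h1 : ∀ β : ℝ, aeval β P = 0 := by
      intro β
      have h2 := heval (β + s / D)
      rw [h0, map_zero, add_sub_cancel_right] at h2
      have h3 : (D : ℝ) ^ n ≠ 0 := pow_ne_zero _ hD0
      exact (mul_eq_zero.1 h2.symm).resolve_left h3
    have h4 : P.map (Int.castRingHom ℝ) = 0 := by
      apply Polynomial.funext
      intro β
      rw [eval_zero, eval_map]
      have := h1 β
      rwa [aeval_def, algebraMap_int_eq] at this
    exact (Polynomial.map_eq_zero_iff Int.cast_injective).1 h4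
  · rw [heval, add_sub_cancel_right, hα, mul_zero]
  · apply height_le_of_forall
    · positivity
    · intro k
      rw [hP', finsetSum_coeff, Int.cast_sum]
      refine (Finset.abs_sum_le_sum_abs _ _).trans ?_
      have h1 : ∀ i ∈ Finset.range (n + 1), |(((C (P.coeff i) * q s i).coeff k : ℤ) : ℝ)| ≤
          (height P : ℝ) * (height (q s i) : ℝ) := by
        intro i _
        rw [coeff_C_mul, Int.cast_mul, abs_mul]
        exact mul_le_mul (abs_coeff_le_height P i) (abs_coeff_le_height _ k) (abs_nonneg _)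
          (by positivity)
      refine (Finset.sum_le_sum h1).trans ?_
      rw [← Finset.mul_sum, mul_comm]
      apply mul_le_mul_of_nonneg_right _ (by positivity)
      have h2 : ∑ i ∈ Finset.range (n + 1), (height (q s i) : ℝ) ≤
          ∑ s ∈ Finset.range (D + 1), ∑ i ∈ Finset.range (n + 1), (height (q s i) : ℝ) := by
        apply Finset.single_le_sum
          (f := fun s => ∑ i ∈ Finset.range (n + 1), (height (q s i) : ℝ))
        · intro j _; positivity
        · exact Finset.mem_range.2 (by omega)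
      rw [hB]; linarith

end Pool.Agent.Lib_helper71.Normal
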