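import Pool.Agent.Lib_helper71.Normal.Defs

/-!
# Weyl's criterion implies simple normality
-/

set_option autoImplicit false

namespace Pool.Agent.Lib_helper71.Normal

open Filter Topology MeasureTheory

namespace W1

/-- average of `f` over the first `N` points -/
noncomputable def avg (x : ℕ → UnitAddCircle) (f : C(UnitAddCircle, ℂ)) (N : ℕ) : ℂ :=
  (∑ j ∈ Finset.range N, f (x j)) / N

lemma avg_norm_le (x : ℕ → UnitAddCircle) (f : C(UnitAddCircle, ℂ)) (N : ℕ) :
    ‖avg x f N‖ ≤ ‖f‖ := by
  unfold avg
  rw [norm_div, Complex.norm_natCast]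
  rcases Nat.eq_zero_or_pos N with h | h
  · subst h; simp
  · have hN : (0 : ℝ) < N := by exact_mod_cast h
    rw [div_le_iff₀ hN]
    calc ‖∑ j ∈ Finset.range N, f (x j)‖ ≤ ∑ j ∈ Finset.range N, ‖f (x j)‖ := norm_sum_le _ _
      _ ≤ ∑ _j ∈ Finset.range N, ‖f‖ := Finset.sum_le_sum (fun j _ => f.norm_coe_le_norm _)
      _ = ‖f‖ * N := by simp [mul_comm]

lemma avg_add (x : ℕ → UnitAddCircle) (f g : C(UnitAddCircle, ℂ)) (N : ℕ) :
    avg x (f + g) N = avg x f N + avg x g N := by
  unfold avg
  simp only [ContinuousMap.add_apply, Finset.sum_add_distrib, add_div]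

lemma avg_smul (x : ℕ → UnitAddCircle) (c : ℂ) (f : C(UnitAddCircle, ℂ)) (N : ℕ) :
    avg x (c • f) N = c * avg x f N := by
  unfold avg
  simp only [ContinuousMap.smul_apply, smul_eq_mul, ← Finset.mul_sum, mul_div_assoc]

lemma integral_norm_le (f : C(UnitAddCircle, ℂ)) :
    ‖∫ t, f t ∂AddCircle.haarAddCircle‖ ≤ ‖f‖ := by
  have := norm_integral_le_of_norm_le_const (μ := (AddCircle.haarAddCircle : Measure UnitAddCircle))
    (f := fun t => f t) (C := ‖f‖) (Eventually.of_forall fun t => f.norm_coe_le_norm t)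
  simpa using this

lemma integrable (f : C(UnitAddCircle, ℂ)) :
    Integrable (fun t => f t) (AddCircle.haarAddCircle : Measure UnitAddCircle) :=
  f.continuous.integrable_of_hasCompactSupport (HasCompactSupport.of_compactSpace _)

lemma integral_fourier (m : ℤ) :
    ∫ t, (fourier m : C(UnitAddCircle, ℂ)) t ∂AddCircle.haarAddCircle = if m = 0 then 1 else 0 := by
  have h := fourierCoeff_fourier (T := (1 : ℝ)) m
  have h2 := congrFun h 0
  rw [fourierCoeff] at h2
  simp only [neg_zero, fourier_zero, one_smul] at h2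
  rw [h2, Pi.single_apply]
  by_cases hm : m = 0
  · simp [hm]
  · rw [if_neg hm, if_neg (Ne.symm hm)]

lemma avg_tendsto (x : ℕ → UnitAddCircle)
    (h : ∀ m : ℤ, m ≠ 0 → Tendsto (avg x (fourier m)) atTop (𝓝 0)) (f : C(UnitAddCircle, ℂ)) :
    Tendsto (avg x f) atTop (𝓝 (∫ t, f t ∂AddCircle.haarAddCircle)) := by
  have hspan : ∀ p ∈ Submodule.span ℂ (Set.range (@fourier (1 : ℝ))),
      Tendsto (avg x p) atTop (𝓝 (∫ t, p t ∂AddCircle.haarAddCircle)) := by
    intro p hp
    induction hp using Submodule.span_induction with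
    | mem p hp =>
      obtain ⟨m, rfl⟩ := hp
      rw [integral_fourier]
      by_cases hm : m = 0
      · subst hm
        rw [if_pos rfl]
        apply tendsto_const_nhds.congr'
        filter_upwards [eventually_ge_atTop 1] with N hN
        unfold avg
        have : (N : ℂ) ≠ 0 := by exact_mod_cast (by omega : N ≠ 0)
        simp [this]
      · rw [if_neg hm]
        exact h m hm
    | zero =>
      have : avg x 0 = fun _ => 0 := by
        funext N; simp [avg]
      rw [this]
      simp
    | add p q _ _ hp hq =>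
      have h1 : avg x (p + q) = fun N => avg x p N + avg x q N := funext (avg_add x p q)
      rw [h1]
      have h2 : ∫ t, (p + q) t ∂AddCircle.haarAddCircle
          = ∫ t, p t ∂AddCircle.haarAddCircle + ∫ t, q t ∂AddCircle.haarAddCircle := by
        simp only [ContinuousMap.add_apply]
        exact integral_add (integrable p) (integrable q)
      rw [h2]
      exact hp.add hq
    | smul c p _ hp =>
      have h1 : avg x (c • p) = fun N => c * avg x p N := funext (avg_smul x c p)
      rw [h1]
      have h2 : ∫ t, (c • p) t ∂AddCircle.haarAddCircle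
          = c * ∫ t, p t ∂AddCircle.haarAddCircle := by
        simp only [ContinuousMap.smul_apply, smul_eq_mul]
        exact integral_const_mul _ _
      rw [h2]
      exact hp.const_mul c
  have hf : f ∈ closure (Submodule.span ℂ (Set.range (@fourier (1 : ℝ))) : Set C(UnitAddCircle, ℂ)) := by
    have h1 := span_fourier_closure_eq_top (T := (1 : ℝ))
    have h2 : f ∈ (Submodule.span ℂ (Set.range (@fourier (1 : ℝ)))).topologicalClosure := by
      rw [h1]; trivial
    exact h2
  rw [Metric.tendsto_atTop]
  intro ε hε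
  obtain ⟨p, hp, hfp⟩ := Metric.mem_closure_iff.1 hf (ε / 4) (by positivity)
  obtain ⟨N0, hN0⟩ := Metric.tendsto_atTop.1 (hspan p hp) (ε / 4) (by positivity)
  refine ⟨N0, fun N hN => ?_⟩
  have h1 := hN0 N hN
  rw [dist_eq_norm] at h1 hfp ⊢
  have e1 : avg x f N - avg x p N = avg x (f - p) N := by
    have : f = (f - p) + p := by simp
    conv_lhs => rw [this, avg_add]
    ring
  have e2 : ∫ t, p t ∂AddCircle.haarAddCircle - ∫ t, f t ∂AddCircle.haarAddCircle
      = - ∫ t, (f - p) t ∂AddCircle.haarAddCircle := by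
    simp only [ContinuousMap.sub_apply]
    rw [integral_sub (integrable f) (integrable p)]
    ring
  have e3 : avg x f N - ∫ t, f t ∂AddCircle.haarAddCircle
      = (avg x f N - avg x p N) + (avg x p N - ∫ t, p t ∂AddCircle.haarAddCircle)
        + (∫ t, p t ∂AddCircle.haarAddCircle - ∫ t, f t ∂AddCircle.haarAddCircle) := by ring
  rw [e3, e1, e2]
  have n1 := avg_norm_le x (f - p) N
  have n2 := integral_norm_le (f - p)
  calc ‖avg x (f - p) N + (avg x p N - ∫ t, p t ∂AddCircle.haarAddCircle)
        + - ∫ t, (f - p) t ∂AddCircle.haarAddCircle‖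
      ≤ ‖avg x (f - p) N‖ + ‖avg x p N - ∫ t, p t ∂AddCircle.haarAddCircle‖
        + ‖- ∫ t, (f - p) t ∂AddCircle.haarAddCircle‖ := norm_add₃_le
    _ < ε := by rw [norm_neg]; linarith

/-- tent function around a point -/
noncomputable def tent (c : UnitAddCircle) (r δ : ℝ) (t : UnitAddCircle) : ℝ :=
  max 0 (1 - max 0 (dist t c - r) / δ)

lemma tent_cont (c : UnitAddCircle) (r δ : ℝ) : Continuous (tent c r δ) := by
  unfold tent
  fun_prop

lemma tent_nonneg (c : UnitAddCircle) (r δ : ℝ) (t : UnitAddCircle) : 0 ≤ tent c r δ t :=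
  le_max_left _ _

lemma tent_le_one (c : UnitAddCircle) (r : ℝ) {δ : ℝ} (hδ : 0 < δ) (t : UnitAddCircle) :
    tent c r δ t ≤ 1 := by
  unfold tent
  apply max_le (by norm_num)
  have : 0 ≤ max 0 (dist t c - r) / δ := by positivity
  linarith

lemma tent_eq_one (c : UnitAddCircle) (r δ : ℝ) {t : UnitAddCircle} (ht : dist t c ≤ r) :
    tent c r δ t = 1 := by
  unfold tent
  rw [max_eq_left (by linarith : dist t c - r ≤ 0)]
  simp

lemma tent_eq_zero (c : UnitAddCircle) (r : ℝ) {δ : ℝ} (hδ : 0 < δ) {t : UnitAddCircle}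
    (ht : r + δ < dist t c) : tent c r δ t = 0 := by
  unfold tent
  rw [max_eq_right (by linarith : 0 ≤ dist t c - r)]
  apply max_eq_left
  have : 1 ≤ (dist t c - r) / δ := by
    rw [one_le_div hδ]; linarith
  linarith

lemma tent_integral_le (c : UnitAddCircle) {r δ : ℝ} (hr : 0 ≤ r) (hδ : 0 < δ) :
    ∫ t, tent c r δ t ∂AddCircle.haarAddCircle ≤ 2 * r + 2 * δ := by
  have hvol : (AddCircle.haarAddCircle : Measure UnitAddCircle) = volume := by
    rw [AddCircle.volume_eq_smul_haarAddCircle]
    simp
  have h1 : ∫ t, tent c r δ t ∂AddCircle.haarAddCircle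
      ≤ ∫ t, (Metric.closedBall c (r + δ)).indicator (fun _ => (1 : ℝ)) t
          ∂AddCircle.haarAddCircle := by
    apply integral_mono
    · exact (tent_cont c r δ).integrable_of_hasCompactSupport (HasCompactSupport.of_compactSpace _)
    · exact (integrable_const (1 : ℝ)).indicator Metric.isClosed_closedBall.measurableSet
    · intro t
      by_cases ht : t ∈ Metric.closedBall c (r + δ)
      · rw [Set.indicator_of_mem ht]
        exact tent_le_one c r hδ t
      · rw [Set.indicator_of_notMem ht]
        rw [Metric.mem_closedBall, not_le] at ht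
        exact (tent_eq_zero c r hδ ht).le
  refine h1.trans ?_
  rw [integral_indicator Metric.isClosed_closedBall.measurableSet, hvol]
  rw [setIntegral_const, smul_eq_mul, mul_one, Measure.real, AddCircle.volume_closedBall]
  rw [ENNReal.toReal_ofReal (by positivity)]
  exact (min_le_right _ _).trans (by linarith)

end W1

open W1 in
theorem simplyNormal_of_weyl (b : ℕ) (hb : 2 ≤ b) (ξ : ℝ)
    (h : ∀ m : ℕ, 1 ≤ m → Tendsto (fun N : ℕ =>
      ‖∑ j ∈ Finset.range N, e (m * b ^ j * ξ)‖ / N) atTop (𝓝 0)) : SimplyNormal b ξ := by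
  have hb0 : (0 : ℝ) < b := by positivity
  set x : ℕ → UnitAddCircle := fun j => ((b : ℝ) ^ j * ξ : ℝ) with hx
  -- Fourier averages
  have hfour : ∀ m : ℕ, ∀ j, (fourier (m : ℤ) : C(UnitAddCircle, ℂ)) (x j) = e (m * b ^ j * ξ) := by
    intro m j
    rw [hx]
    simp only
    rw [fourier_coe_apply]
    unfold e
    congr 1
    push_cast
    ring
  have hpos : ∀ m : ℕ, 1 ≤ m → Tendsto (avg x (fourier (m : ℤ))) atTop (𝓝 0) := by
    intro m hm
    rw [tendsto_zero_iff_norm_tendsto_zero]
    refine (h m hm).congr (fun N => ?_)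
    unfold avg
    rw [norm_div, Complex.norm_natCast]
    congr 2
    exact Finset.sum_congr rfl (fun j _ => (hfour m j).symm)
  have hall : ∀ m : ℤ, m ≠ 0 → Tendsto (avg x (fourier m)) atTop (𝓝 0) := by
    intro m hm
    rcases Int.eq_nat_or_neg m with ⟨k, hk | hk⟩
    · subst hk
      exact hpos k (by omega)
    · subst hk
      have h1 := hpos k (by omega)
      rw [tendsto_zero_iff_norm_tendsto_zero] at h1 ⊢
      refine h1.congr (fun N => ?_)
      have : avg x (fourier (-(k : ℤ))) N = (starRingEnd ℂ) (avg x (fourier (k : ℤ)) N) := by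
        unfold avg
        rw [map_div₀, map_sum, Complex.conj_natCast]
        congr 1
        exact Finset.sum_congr rfl (fun j _ => fourier_neg)
      rw [this, Complex.norm_conj]
  -- upper bound for the frequencies
  set freq : ℕ → ℕ → ℝ := fun d N =>
    (((Finset.Icc 1 N).filter (fun j => digit b ξ j = (d : ℤ))).card : ℝ) / (N : ℝ) with hfreq
  have hcount : ∀ d N, (((Finset.Icc 1 N).filter (fun j => digit b ξ j = (d : ℤ))).card : ℝ)
      = ∑ j ∈ Finset.range N, if digit b ξ (j + 1) = (d : ℤ) then (1 : ℝ) else 0 := by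
    intro d N
    rw [Finset.sum_boole, Finset.range_eq_Ico]
    congr 1
    have : (Finset.Icc 1 N) = (Finset.Ico 0 N).image (· + 1) := by
      ext a
      simp only [Finset.mem_Icc, Finset.mem_image, Finset.mem_Ico]
      constructor
      · intro ⟨h1, h2⟩
        exact ⟨a - 1, by omega, by omega⟩
      · rintro ⟨c, hc, rfl⟩
        omega
    rw [this, Finset.filter_image, Finset.card_image_of_injective _ (add_left_injective 1)]
  have hup : ∀ d : ℕ, d < b → ∀ ε : ℝ, 0 < ε → ∀ᶠ N in atTop, freq d N ≤ 1 / b + ε := by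
    intro d hd ε hε
    set c : UnitAddCircle := (((2 * d + 1) / (2 * b) : ℝ) : UnitAddCircle) with hc
    set r : ℝ := 1 / (2 * b) with hr
    have hr0 : 0 ≤ r := by positivity
    set δ : ℝ := ε / 4 with hδ
    have hδ0 : 0 < δ := by positivity
    set F : C(UnitAddCircle, ℂ) := ⟨fun t => ((tent c r δ t : ℝ) : ℂ),
      Complex.continuous_ofReal.comp (tent_cont c r δ)⟩ with hF
    have h1 := avg_tendsto x hall F
    have h2 : ∫ t, F t ∂AddCircle.haarAddCircle
        = ((∫ t, tent c r δ t ∂AddCircle.haarAddCircle : ℝ) : ℂ) := by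
      exact integral_ofReal
    rw [h2] at h1
    have h3 : Tendsto (fun N => (avg x F N).re) atTop
        (𝓝 (∫ t, tent c r δ t ∂AddCircle.haarAddCircle)) := by
      have := (Complex.continuous_re.tendsto _).comp h1
      rw [Complex.ofReal_re] at this
      exact this
    have h4 : ∫ t, tent c r δ t ∂AddCircle.haarAddCircle < 1 / b + ε := by
      have h5 := tent_integral_le c hr0 hδ0
      have h6 : 2 * r = 1 / b := by rw [hr]; field_simp
      rw [h6, hδ] at h5
      linarith
    have h7 := h3.eventually (gt_mem_nhds h4)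
    filter_upwards [h7] with N hN
    refine le_trans ?_ hN.le
    have h8 : (avg x F N).re = (∑ j ∈ Finset.range N, tent c r δ (x j)) / N := by
      unfold avg
      have : (∑ j ∈ Finset.range N, F (x j)) / (N : ℂ)
          = (((∑ j ∈ Finset.range N, tent c r δ (x j)) / N : ℝ) : ℂ) := by
        push_cast
        rfl
      rw [this, Complex.ofReal_re]
    rw [h8, hfreq]
    simp only
    rw [hcount]
    apply div_le_div_of_nonneg_right _ (by positivity)
    apply Finset.sum_le_sum
    intro j _
    by_cases hj : digit b ξ (j + 1) = (d : ℤ)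
    · rw [if_pos hj, tent_eq_one]
      -- the point is in the ball
      rw [hx, hc, dist_eq_norm, ← AddCircle.coe_sub, UnitAddCircle.norm_eq]
      set y : ℝ := (b : ℝ) ^ j * ξ with hy
      unfold digit at hj
      have hy2 : (b : ℝ) ^ (j + 1) * ξ = b * y := by rw [hy, pow_succ]; ring
      rw [hy2] at hj
      set k : ℤ := ⌊(b : ℝ) * y⌋ / b with hk
      have hfl : ⌊(b : ℝ) * y⌋ = b * k + d := by
        have := Int.mul_ediv_add_emod ⌊(b : ℝ) * y⌋ b
        rw [hj] at this
        linarith
      have h9 := Int.floor_le ((b : ℝ) * y)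
      have h10 := Int.lt_floor_add_one ((b : ℝ) * y)
      rw [hfl] at h9 h10
      push_cast at h9 h10
      refine (round_le _ k).trans ?_
      rw [abs_le]
      have hbb : (2 * (b : ℝ)) ≠ 0 := by positivity
      have e1 : y - (2 * d + 1) / (2 * b) - k = (2 * (b * y - (b * k + d)) - 1) / (2 * b) := by
        field_simp
        ring
      rw [e1, hr]
      constructor
      · rw [neg_le_iff_add_nonneg, ← add_div]
        apply div_nonneg _ (by positivity)
        linarith
      · apply div_le_div_of_nonneg_right _ (by positivity)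
        linarith
    · rw [if_neg hj]
      exact tent_nonneg _ _ _ _
  -- the frequencies sum to one
  have hsum : ∀ N : ℕ, 1 ≤ N → ∑ d ∈ Finset.range b, freq d N = 1 := by
    intro N hN
    have hN0 : (N : ℝ) ≠ 0 := by positivity
    rw [hfreq]
    simp only
    rw [← Finset.sum_div]
    have : ∑ d ∈ Finset.range b,
        (((Finset.Icc 1 N).filter (fun j => digit b ξ j = (d : ℤ))).card : ℝ) = N := by
      simp only [hcount]
      rw [Finset.sum_comm]
      have : ∀ j ∈ Finset.range N, ∑ d ∈ Finset.range b,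
          (if digit b ξ (j + 1) = (d : ℤ) then (1 : ℝ) else 0) = 1 := by
        intro j _
        have h1 : 0 ≤ digit b ξ (j + 1) := Int.emod_nonneg _ (by positivity)
        have h2 : digit b ξ (j + 1) < b := Int.emod_lt_of_pos _ (by positivity)
        obtain ⟨k, hk⟩ := Int.eq_ofNat_of_zero_le h1
        rw [Finset.sum_eq_single k]
        · rw [if_pos hk]
        · intro d _ hd
          rw [if_neg]
          intro h3
          apply hd
          rw [hk] at h3
          exact_mod_cast h3.symm
        · intro h3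
          exfalso
          apply h3
          rw [Finset.mem_range]
          omega
      rw [Finset.sum_congr rfl this]
      simp
    rw [this]
    field_simp
  intro d hd
  rw [Metric.tendsto_atTop]
  intro ε hε
  have hev : ∀ᶠ N in atTop, ∀ d' ∈ Finset.range b, freq d' N ≤ 1 / b + ε / (2 * b) := by
    rw [Finset.eventually_all]
    intro d' hd'
    exact hup d' (Finset.mem_range.1 hd') _ (by positivity)
  obtain ⟨N0, hN0⟩ := (hev.and (eventually_ge_atTop 1)).exists_forall_of_atTop
  refine ⟨N0, fun N hN => ?_⟩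
  obtain ⟨h1, h2⟩ := hN0 N hN
  have h3 := hsum N h2
  have h4 := h1 d (Finset.mem_range.2 hd)
  rw [← Finset.add_sum_erase _ _ (Finset.mem_range.2 hd)] at h3
  have h5 : ∑ d' ∈ (Finset.range b).erase d, freq d' N
      ≤ ∑ _d' ∈ (Finset.range b).erase d, (1 / (b : ℝ) + ε / (2 * b)) :=
    Finset.sum_le_sum (fun d' hd' => h1 d' (Finset.mem_of_mem_erase hd'))
  rw [Finset.sum_const, Finset.card_erase_of_mem (Finset.mem_range.2 hd), Finset.card_range,
    nsmul_eq_mul, Nat.cast_sub (by omega)] at h5
  have h6 : ((b : ℝ) - ((1 : ℕ) : ℝ)) * (1 / (b : ℝ) + ε / (2 * b)) ≤ 1 - 1 / b + ε / 2 := by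
    have e1 : ((b : ℝ) - ((1 : ℕ) : ℝ)) * (1 / (b : ℝ) + ε / (2 * b))
        = 1 - 1 / b + ε / 2 - ε / (2 * b) := by
      push_cast
      field_simp
      ring
    rw [e1]
    have : 0 ≤ ε / (2 * (b : ℝ)) := by positivity
    linarith
  have h7 : ε / (2 * (b : ℝ)) < ε := by
    rw [div_lt_iff₀ (by positivity)]
    have : (2 : ℝ) ≤ b := by exact_mod_cast hb
    nlinarith
  rw [Real.dist_eq, abs_lt]
  change -ε < freq d N - 1 / b ∧ freq d N - 1 / b < ε
  constructor
  · linarith
  · linarith

end Pool.Agent.Lib_helper71.Normal
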